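import Pool.Agent.Y990.OA.Stm

/-!
# Weak discrete Loomis-Whitney inequality (S_lw), project OA of helper990
-/

set_option autoImplicit false

namespace Pool.Agent.Y67.OA

open MeasureTheory Function Pool.Agent.Y990.OA

theorem pi_count_finset {d : ℕ} (S : Finset (Fin d → ℤ)) :
    (Measure.pi (fun _ : Fin d => (Measure.count : Measure ℤ))) (S : Set (Fin d → ℤ)) =
      (S.card : ENNReal) := by
  rw [← sum_measure_singleton]
  have h : ∀ x ∈ S, (Measure.pi (fun _ : Fin d => (Measure.count : Measure ℤ))) {x} = 1 := by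
    intro x _
    rw [Measure.pi_singleton]
    simp
  rw [Finset.sum_congr rfl h, Finset.sum_const, nsmul_eq_mul, mul_one]

theorem grid {d : ℕ} (hd : 2 ≤ d) (U : Finset (Fin d → ℤ)) :
    (U.card : ENNReal) ≤ (∑ i : Fin d,
      ((U.image (fun z => update z i 0)).card : ENNReal)) ^ ((d : ℝ) / ((d : ℝ) - 1)) := by
  classical
  have hd1 : (1 : ℝ) < (Fintype.card (Fin d) : ℝ) := by
    rw [Fintype.card_fin]
    exact_mod_cast (by omega : 1 < d)
  have hp : Real.HolderConjugate (Fintype.card (Fin d) : ℝ) ((d : ℝ) / ((d : ℝ) - 1)) := by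
    have h := Real.HolderConjugate.conjExponent hd1
    rw [Real.conjExponent] at h
    convert h using 2 <;> rw [Fintype.card_fin]
  set f : (Fin d → ℤ) → ENNReal := fun x => ∑ i : Fin d,
    Set.indicator ((U.image (fun z => update z i 0) : Finset (Fin d → ℤ)) : Set (Fin d → ℤ))
      (fun _ => (1 : ENNReal)) x with hf
  have hfm : Measurable f := by
    refine Finset.measurable_sum _ fun i _ => ?_
    exact measurable_const.indicator (Finset.measurableSet _)
  have h := lintegral_prod_lintegral_pow_le (fun _ : Fin d => (Measure.count : Measure ℤ)) hp hfm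
  have h1 : ∫⁻ x, f x ∂(Measure.pi (fun _ : Fin d => (Measure.count : Measure ℤ))) =
      ∑ i : Fin d, ((U.image (fun z => update z i 0)).card : ENNReal) := by
    rw [hf, lintegral_finsetSum _ (fun i _ => measurable_const.indicator (Finset.measurableSet _))]
    refine Finset.sum_congr rfl fun i _ => ?_
    rw [lintegral_indicator (Finset.measurableSet _), setLIntegral_const, one_mul,
      pi_count_finset]
  rw [h1] at h
  refine le_trans ?_ h
  have h2 : ∀ x ∈ (U : Set (Fin d → ℤ)), (1 : ENNReal) ≤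
      ∏ i, (∫⁻ xᵢ, f (update x i xᵢ) ∂(Measure.count : Measure ℤ)) ^
        ((1 : ℝ) / ((Fintype.card (Fin d) : ℝ) - 1)) := by
    intro x hx
    refine Finset.one_le_prod' fun i _ => ?_
    have h3 : (1 : ENNReal) ≤ ∫⁻ xᵢ, f (update x i xᵢ) ∂(Measure.count : Measure ℤ) := by
      rw [lintegral_count]
      refine le_trans ?_ (ENNReal.le_tsum (0 : ℤ))
      rw [hf]
      refine le_trans ?_ (Finset.single_le_sum (f := fun j : Fin d => Set.indicator
        ((U.image (fun z => update z j 0) : Finset (Fin d → ℤ)) : Set (Fin d → ℤ))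
        (fun _ => (1 : ENNReal)) (update x i 0)) (fun _ _ => bot_le) (Finset.mem_univ i))
      rw [Set.indicator_of_mem]
      rw [Finset.mem_coe, Finset.mem_image]
      exact ⟨x, hx, rfl⟩
    exact ENNReal.one_le_rpow h3 (by
      have : 0 < (Fintype.card (Fin d) : ℝ) - 1 := by linarith
      positivity)
  calc (U.card : ENNReal)
      = ∫⁻ _x in (U : Set (Fin d → ℤ)), 1
          ∂(Measure.pi (fun _ : Fin d => (Measure.count : Measure ℤ))) := by
        rw [setLIntegral_const, one_mul, pi_count_finset]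
    _ ≤ ∫⁻ x in (U : Set (Fin d → ℤ)),
          ∏ i, (∫⁻ xᵢ, f (update x i xᵢ) ∂(Measure.count : Measure ℤ)) ^
            ((1 : ℝ) / ((Fintype.card (Fin d) : ℝ) - 1))
          ∂(Measure.pi (fun _ : Fin d => (Measure.count : Measure ℤ))) :=
        setLIntegral_mono' (Finset.measurableSet _) h2
    _ ≤ _ := setLIntegral_le_lintegral _ _

/-- **OA-LW.** -/
theorem lw : S_lw := by
  intro d hd
  have hd1 : (1 : ℝ) < d := by exact_mod_cast (by omega : 1 < d)
  refine ⟨d, hd1.le, fun U s hs h => ?_⟩
  have h1 := grid hd U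
  have h2 : (∑ i : Fin d, ((U.image (fun z => update z i 0)).card : ENNReal)) ≤
      ENNReal.ofReal (d * s) := by
    have h3 : (∑ i : Fin d, ((U.image (fun z => update z i 0)).card : ENNReal)) =
        ENNReal.ofReal (∑ i : Fin d, ((U.image (fun z => update z i 0)).card : ℝ)) := by
      rw [ENNReal.ofReal_sum_of_nonneg (fun i _ => Nat.cast_nonneg _)]
      refine Finset.sum_congr rfl fun i _ => ?_
      rw [ENNReal.ofReal_natCast]
    rw [h3]
    apply ENNReal.ofReal_le_ofReal
    refine (Finset.sum_le_sum fun i _ => h i).trans ?_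
    rw [Finset.sum_const, Finset.card_univ, Fintype.card_fin, nsmul_eq_mul]
  have h4 : (U.card : ENNReal) ≤ ENNReal.ofReal ((d * s) ^ ((d : ℝ) / ((d : ℝ) - 1))) := by
    have hds : 0 ≤ (d : ℝ) * s := by positivity
    have hpp : 0 ≤ (d : ℝ) / ((d : ℝ) - 1) := div_nonneg (by linarith) (by linarith)
    rw [← ENNReal.ofReal_rpow_of_nonneg hds hpp]
    exact h1.trans (ENNReal.rpow_le_rpow h2 hpp)
  rw [← ENNReal.ofReal_natCast, ENNReal.ofReal_le_ofReal_iff (by positivity)] at h4
  have hq : 0 ≤ ((d : ℝ) - 1) / d := div_nonneg (by linarith) (by linarith)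
  calc (U.card : ℝ) ^ (((d : ℝ) - 1) / d)
      ≤ ((d * s) ^ ((d : ℝ) / ((d : ℝ) - 1))) ^ (((d : ℝ) - 1) / d) :=
        Real.rpow_le_rpow (Nat.cast_nonneg _) h4 hq
    _ = d * s := by
        rw [← Real.rpow_mul (by positivity)]
        have : (d : ℝ) / ((d : ℝ) - 1) * (((d : ℝ) - 1) / d) = 1 := by
          have h5 : (d : ℝ) - 1 ≠ 0 := by linarith
          have h6 : (d : ℝ) ≠ 0 := by linarith
          field_simp
        rw [this, Real.rpow_one]

end Pool.Agent.Y67.OA
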